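import Mathlib
import Pool.Agent.Lib.helper21.While
import Pool.Agent.Lib.helper21.CFG

set_option autoImplicit false

namespace Pool.Agent.H.MP_88f7c7_lc

open Pool.Agent.Lib.helper21.While Pool.Agent.Lib.helper21.CFG List

def step (q : ℕ × ℕ) (x : Fin 4) : Option (ℕ × ℕ) :=
  if x = 0 then (if q.2 < q.1 then some (q.1, q.2 + 1) else none)
  else if x = 1 then (if q.2 = q.1 then some (2 * q.1, 0) else none)
  else if x = 2 then some (1, 0) else some q

def run : ℕ × ℕ → List (Fin 4) → Option (ℕ × ℕ)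
  | q, [] => some q
  | q, x :: w => (step q x).bind (fun q' => run q' w)

theorem run_append (q : ℕ × ℕ) (u v : List (Fin 4)) :
    run q (u ++ v) = (run q u).bind (fun q' => run q' v) := by
  induction u generalizing q with
  | nil => rfl
  | cons x u ih => simp only [cons_append, run, ih, Option.bind_assoc]

theorem run_app {q q'' : ℕ × ℕ} {u v : List (Fin 4)} :
    run q (u ++ v) = some q'' ↔ ∃ q', run q u = some q' ∧ run q' v = some q'' := by
  rw [run_append, Option.bind_eq_some_iff]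

theorem run_rep (N c k : ℕ) (q : ℕ × ℕ) :
    run (N, c) (replicate k 0) = some q ↔ (k = 0 ∨ c + k ≤ N) ∧ q = (N, c + k) := by
  induction k generalizing c with
  | zero => simp [run, eq_comm]
  | succ k ih =>
    simp only [replicate_succ, run, step, if_true]
    split_ifs with h
    · rw [Option.bind_some, ih, show c + 1 + k = c + (k + 1) by omega]
      have h' : c < N := h
      refine and_congr_left' ⟨fun h => by omega, fun h => ?_⟩
      rcases h with h | h
      · cases h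
      · exact Or.inr h
    · simp; omega

def blk (i j : ℕ) : List (Fin 4) := replicate i 0 ++ 1 :: replicate j 0

theorem run_blk (N c i j : ℕ) (q : ℕ × ℕ) :
    run (N, c) (blk i j) = some q ↔ c + i = N ∧ j ≤ 2 * N ∧ q = (2 * N, j) := by
  simp only [blk, run_app, run_rep, run, Option.bind_eq_some_iff]
  constructor
  · rintro ⟨_, ⟨-, rfl⟩, q', h1, h2⟩
    simp [step] at h1
    obtain ⟨h1, rfl⟩ := h1
    rw [run_rep] at h2
    exact ⟨h1, by omega, by simpa using h2.2⟩
  · rintro ⟨h1, h2, rfl⟩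
    exact ⟨_, ⟨Or.inr h1.le, rfl⟩, (2 * N, 0), by simp [step, h1], by rw [run_rep]; simp; omega⟩

theorem blk_wrap (i j x y : ℕ) : replicate x 0 ++ (blk i j ++ replicate y 0) = blk (x + i) (j + y) := by
  simp only [blk, append_assoc, cons_append, replicate_append_replicate]
  rw [← append_assoc, replicate_append_replicate]

deriving instance Countable for Prog

inductive NT : Type
  | start : NT
  | pr : Prog → NT
  | lin : ℕ → ℕ → ℕ → ℕ → NT
  deriving Countable

instance : Nonempty NT := ⟨.start⟩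

noncomputable def en : NT → ℕ := (exists_injective_nat NT).choose

theorem en_inj : Function.Injective en := (exists_injective_nat NT).choose_spec

abbrev Sy : Type := Symbol (Fin 4) ℕ

abbrev Ru : Type := ContextFreeRule (Fin 4) ℕ

noncomputable def nt (X : NT) : Sy := .nonterminal (en X)

noncomputable def linR (x y z w : ℕ) : Set Ru :=
  {⟨en (.lin x y z w), (replicate x 0).map .terminal ++
      (nt (.lin x y z w) :: (replicate y 0).map .terminal)⟩,
    ⟨en (.lin x y z w), (blk z w).map .terminal⟩}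

noncomputable def segR (p : Prog) (x y z : ℕ) (tl : List Sy) : Set Ru :=
  {⟨en (.pr p), nt (.lin 1 2 0 0) :: nt (.lin (2 * x) y (2 * z) z) :: tl⟩} ∪
    (linR 1 2 0 0 ∪ linR (2 * x) y (2 * z) z)

noncomputable def pm (r : ℕ) : ℕ := Nat.nth Nat.Prime r

theorem pm_prime (r : ℕ) : (pm r).Prime := Nat.prime_nth_prime r

noncomputable def rules : Prog → Set Ru
  | .inc r => segR (.inc r) 1 (pm r) 0 []
  | .dec r => segR (.dec r) (pm r) 1 0 [] ∪ ⋃ j ∈ Set.Ioo 0 (pm r), segR (.dec r) (pm r) (pm r) j []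
  | .seq p q => {⟨en (.pr (.seq p q)), [nt (.pr p), nt (.pr q)]⟩} ∪ (rules p ∪ rules q)
  | .loop r p => segR (.loop r p) (pm r) (pm r) 0 [nt (.pr p), nt (.pr (.loop r p))] ∪
      ((⋃ j ∈ Set.Ioo 0 (pm r), segR (.loop r p) (pm r) (pm r) j []) ∪ rules p)

theorem segR_fin (p : Prog) (x y z : ℕ) (tl : List Sy) : (segR p x y z tl).Finite :=
  (Set.finite_singleton _).union (((Set.finite_singleton _).insert _).union
    ((Set.finite_singleton _).insert _))

theorem rules_fin (p : Prog) : (rules p).Finite := by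
  induction p with
  | inc r => exact segR_fin _ _ _ _ _
  | dec r => exact (segR_fin _ _ _ _ _).union ((Set.finite_Ioo _ _).biUnion
      (fun _ _ => segR_fin _ _ _ _ _))
  | seq p q ih1 ih2 => exact (Set.finite_singleton _).union (ih1.union ih2)
  | loop r p ih => exact (segR_fin _ _ _ _ _).union (((Set.finite_Ioo _ _).biUnion
      (fun _ _ => segR_fin _ _ _ _ _)).union ih)

noncomputable def dc (c : ℕ) : St := fun r => c.factorization (pm r)

theorem dc_mul {c : ℕ} (hc : c ≠ 0) (r : ℕ) :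
    dc (pm r * c) = Function.update (dc c) r (dc c r + 1) := by
  funext x
  simp only [dc, Nat.factorization_mul (pm_prime r).ne_zero hc, (pm_prime r).factorization,
    Finsupp.add_apply, Finsupp.single_apply, Function.update_apply]
  have : pm r = pm x ↔ x = r :=
    ⟨fun h => (Nat.nth_injective Nat.infinite_setOf_prime h).symm, fun h => h ▸ rfl⟩
  simp only [this]
  split_ifs with h
  · rw [h, add_comm]
  · simp

theorem dc_zero {c : ℕ} (hc : c ≠ 0) (r : ℕ) : dc c r = 0 ↔ ¬ pm r ∣ c := by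
  simp [dc, Nat.factorization_eq_zero_iff, pm_prime, hc]

def Tr (p : Prog) (u : List (Fin 4)) : Prop := ∀ N c N' c', c ≠ 0 →
  run (N, c) u = some (N', c') → c' ≠ 0 ∧ Run p (dc c) (dc c')

def II (H : Prop) : NT → List (Fin 4) → Prop
  | .start, u => (∃ q q', run q u = some q') → H
  | .pr p, u => Tr p u
  | .lin x y z w, u => ∃ k, u = blk (x * k + z) (y * k + w)

noncomputable def I0 (H : Prop) (n : ℕ) (u : List (Fin 4)) : Prop := II H (Function.invFun en n) u

theorem I0_en (H : Prop) (X : NT) : I0 H (en X) = II H X := by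
  funext u; rw [I0, Function.leftInverse_invFun en_inj]

theorem lin_sound (H : Prop) (x y z w : ℕ) : ∀ r ∈ linR x y z w, ∀ u, Sem (I0 H) r.output u →
    I0 H r.input u := by
  rintro r (rfl | rfl) u h
  · simp only [sem_ters, nt, sem_nt, I0_en] at h ⊢
    rw [← append_nil (map _ _)] at h
    simp only [sem_ters, sem_nil] at h
    obtain ⟨_, ⟨_, _, ⟨k, rfl⟩, ⟨_, rfl, rfl⟩, rfl⟩, rfl⟩ := h
    exact ⟨k + 1, by rw [append_nil, blk_wrap]; congr 1 <;> ring⟩
  · rw [← append_nil (map _ _)] at h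
    simp only [sem_ters, sem_nil, I0_en] at h ⊢
    obtain ⟨_, rfl, rfl⟩ := h
    exact ⟨0, by simp⟩

theorem seg_sound (H : Prop) (p : Prog) (x y z : ℕ) (tl : List Sy)
    (h : ∀ v, Sem (I0 H) tl v → ∀ N m N' c', x * m + z ≠ 0 → run (N, y * m + z) v = some (N', c') →
      c' ≠ 0 ∧ Run p (dc (x * m + z)) (dc c')) :
    ∀ r ∈ segR p x y z tl, ∀ u, Sem (I0 H) r.output u → I0 H r.input u := by
  rintro r (rfl | hr | hr) u hu
  · simp only [nt, sem_nt, I0_en] at hu ⊢
    obtain ⟨_, _, ⟨k, rfl⟩, ⟨_, v, ⟨m, rfl⟩, hv, rfl⟩, rfl⟩ := hu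
    intro N c N' c' hc hr
    simp only [run_app] at hr
    obtain ⟨q1, h1, q2, h2, h3⟩ := hr
    rw [run_blk] at h1
    obtain ⟨h1, -, rfl⟩ := h1
    rw [run_blk] at h2
    obtain ⟨h2, -, rfl⟩ := h2
    obtain rfl : c = x * m + z := by nlinarith
    exact h v hv _ _ _ _ hc h3
  · exact lin_sound H _ _ _ _ r hr u hu
  · exact lin_sound H _ _ _ _ r hr u hu

theorem nondiv {r m j : ℕ} (hj : j ∈ Set.Ioo 0 (pm r)) : dc (pm r * m + j) r = 0 := by
  rw [dc_zero (by have := hj.1; omega), Nat.dvd_add_right (dvd_mul_right _ _)]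
  exact fun h => absurd (Nat.le_of_dvd hj.1 h) (not_le.2 hj.2)

theorem rules_sound (H : Prop) (p : Prog) : ∀ r ∈ rules p, ∀ u, Sem (I0 H) r.output u →
    I0 H r.input u := by
  induction p with
  | inc r =>
    refine seg_sound H _ _ _ _ _ (fun v hv N m N' c' hc hr => ?_)
    rw [sem_nil.1 hv] at hr
    simp only [run, Option.some.injEq, Prod.mk.injEq, one_mul, add_zero] at hr hc ⊢
    rw [← hr.2, dc_mul hc]
    exact ⟨mul_ne_zero (pm_prime r).ne_zero hc, .inc _ _⟩
  | dec r =>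
    rintro x (hx | hx)
    · refine seg_sound H _ _ _ _ _ (fun v hv N m N' c' hc hr => ?_) x hx
      rw [sem_nil.1 hv] at hr
      simp only [run, Option.some.injEq, Prod.mk.injEq, one_mul, add_zero] at hr hc ⊢
      have hm : m ≠ 0 := right_ne_zero_of_mul hc
      rw [← hr.2, dc_mul hm]
      exact ⟨hm, (Run.dec _ _).of_eq (fun y => by simp)⟩
    · simp only [Set.mem_iUnion] at hx
      obtain ⟨j, hj, hx⟩ := hx
      refine seg_sound H _ _ _ _ _ (fun v hv N m N' c' hc hr => ?_) x hx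
      rw [sem_nil.1 hv] at hr
      simp only [run, Option.some.injEq, Prod.mk.injEq] at hr
      rw [← hr.2]
      exact ⟨hc, (Run.dec _ _).of_eq (fun y => by
        rw [nondiv hj, Nat.zero_sub, ← nondiv (m := m) hj, Function.update_eq_self])⟩
  | seq p q ih1 ih2 =>
    rintro x (rfl | hx | hx)
    · intro u hu
      simp only [nt, sem_nt, sem_nil, I0_en] at hu ⊢
      obtain ⟨u1, _, h1, ⟨u2, _, h2, rfl, rfl⟩, rfl⟩ := hu
      intro N c N' c' hc hr
      rw [append_nil, run_app] at hr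
      obtain ⟨⟨N1, c1⟩, h3, h4⟩ := hr
      obtain ⟨h5, h6⟩ := h1 _ _ _ _ hc h3
      obtain ⟨h7, h8⟩ := h2 _ _ _ _ h5 h4
      exact ⟨h7, .seq h6 h8⟩
    · exact ih1 x hx
    · exact ih2 x hx
  | loop r p ih =>
    rintro x (hx | hx | hx)
    · refine seg_sound H _ _ _ _ _ (fun v hv N m N' c' hc hr => ?_) x hx
      simp only [nt, sem_nt, sem_nil, I0_en] at hv
      obtain ⟨u1, _, h1, ⟨u2, _, h2, rfl, rfl⟩, rfl⟩ := hv
      rw [append_nil, run_app] at hr
      obtain ⟨⟨N1, c1⟩, h3, h4⟩ := hr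
      obtain ⟨h5, h6⟩ := h1 _ _ _ _ hc h3
      obtain ⟨h7, h8⟩ := h2 _ _ _ _ h5 h4
      exact ⟨h7, .go (fun h => (dc_zero hc r).1 h (by simp)) h6 h8⟩
    · simp only [Set.mem_iUnion] at hx
      obtain ⟨j, hj, hx⟩ := hx
      refine seg_sound H _ _ _ _ _ (fun v hv N m N' c' hc hr => ?_) x hx
      rw [sem_nil.1 hv] at hr
      simp only [run, Option.some.injEq, Prod.mk.injEq] at hr
      rw [← hr.2]
      exact ⟨hc, .stop _ (nondiv hj)⟩
    · exact ih x hx

theorem lin_gen {R : Set Ru} {x y z w : ℕ} (h : linR x y z w ⊆ R) (k : ℕ) :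
    Gen R [nt (.lin x y z w)] (blk (x * k + z) (y * k + w)) := by
  induction k with
  | zero => simpa [nt] using Gen.one (h (Or.inr rfl)) (Gen.terminals _ _)
  | succ k ih =>
    have := Gen.one (h (Or.inl rfl)) ((Gen.terminals R _).append (ih.append (Gen.terminals R _)))
    rw [blk_wrap] at this
    rwa [show x * (k + 1) + z = x + (x * k + z) by ring, show y * (k + 1) + w = y * k + w + y by ring]

def Can (R : Set Ru) (l : List Sy) (c c' : ℕ) : Prop := ∃ B, ∀ N, B ≤ N → ∃ u N', N ≤ N' ∧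
  Gen R l u ∧ (∀ x ∈ u, x = 0 ∨ x = 1) ∧ run (N, c) u = some (N', c')

theorem Can.nil (R : Set Ru) (c : ℕ) : Can R [] c c :=
  ⟨0, fun N _ => ⟨[], N, le_rfl, .nil, by simp, rfl⟩⟩

theorem Can.append {R : Set Ru} {l l' : List Sy} {c c' c'' : ℕ} (h : Can R l c c')
    (h' : Can R l' c' c'') : Can R (l ++ l') c c'' := by
  obtain ⟨B, h⟩ := h
  obtain ⟨B', h'⟩ := h'
  refine ⟨B + B', fun N hN => ?_⟩
  obtain ⟨u, N', h1, h2, h3, h4⟩ := h N (by omega)
  obtain ⟨u', N'', h1', h2', h3', h4'⟩ := h' N' (by omega)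
  exact ⟨u ++ u', N'', h1.trans h1', h2.append h2',
    fun x hx => (mem_append.1 hx).elim (h3 x) (h3' x), run_app.2 ⟨_, h4, h4'⟩⟩

theorem Can.one {R : Set Ru} {X : ℕ} {l : List Sy} {c c' : ℕ} (hr : (⟨X, l⟩ : Ru) ∈ R)
    (h : Can R l c c') : Can R [.nonterminal X] c c' := by
  obtain ⟨B, h⟩ := h
  refine ⟨B, fun N hN => ?_⟩
  obtain ⟨u, N', h1, h2, h3, h4⟩ := h N hN
  exact ⟨u, N', h1, h2.one hr, h3, h4⟩

theorem seg_can {R : Set Ru} {p : Prog} {x y z : ℕ} {tl : List Sy} (h : segR p x y z tl ⊆ R)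
    (m : ℕ) {c' : ℕ} (h' : Can R tl (y * m + z) c') : Can R [nt (.pr p)] (x * m + z) c' := by
  refine Can.one (h (Or.inl rfl)) (Can.append (l := [_, _]) ⟨x * m + z + (y * m + z),
    fun N hN => ⟨_, 2 * (2 * N), by omega, (lin_gen (fun _ e => h (Or.inr (Or.inl e)))
      (N - (x * m + z))).append (lin_gen (fun _ e => h (Or.inr (Or.inr e))) m), ?_, ?_⟩⟩ h')
  · intro a ha
    simp only [blk, mem_append, mem_cons, mem_replicate] at ha
    tauto
  · refine run_app.2 ⟨_, (run_blk _ _ _ _ _).2 ⟨by omega, by omega, rfl⟩,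
      (run_blk _ _ _ _ _).2 ⟨?_, by omega, rfl⟩⟩
    rw [mul_assoc]; omega

theorem nondiv' {r c : ℕ} (h : ¬ pm r ∣ c) : c % pm r ∈ Set.Ioo 0 (pm r) :=
  ⟨Nat.pos_of_ne_zero (fun e => h (Nat.dvd_of_mod_eq_zero e)), Nat.mod_lt _ (pm_prime r).pos⟩

theorem complete {R : Set Ru} {p : Prog} {s t : St} (h : Run p s t) : rules p ⊆ R →
    ∀ c, c ≠ 0 → dc c = s → ∃ c', c' ≠ 0 ∧ dc c' = t ∧ Can R [nt (.pr p)] c c' := by
  induction h with
  | inc r s =>
    rintro hR c hc rfl
    exact ⟨pm r * c, mul_ne_zero (pm_prime r).ne_zero hc, dc_mul hc r,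
      by simpa using seg_can hR c (Can.nil _ _)⟩
  | dec r s =>
    rintro hR c hc rfl
    by_cases h : pm r ∣ c
    · obtain ⟨m, rfl⟩ := h
      have hm : m ≠ 0 := right_ne_zero_of_mul hc
      exact ⟨m, hm, by rw [dc_mul hm]; simp,
        by simpa using seg_can (fun _ e => hR (Or.inl e)) m (Can.nil _ _)⟩
    · refine ⟨c, hc, ?_, ?_⟩
      · rw [(dc_zero hc r).2 h, Nat.zero_sub, ← (dc_zero hc r).2 h, Function.update_eq_self]
      · have := seg_can (fun _ e => hR (Or.inr (Set.mem_biUnion (nondiv' h) e))) (c / pm r)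
          (Can.nil _ _)
        rwa [Nat.div_add_mod] at this
  | seq _ _ ih1 ih2 =>
    intro hR c hc e
    obtain ⟨c1, h1, h2, h3⟩ := ih1 (fun _ e => hR (Or.inr (Or.inl e))) c hc e
    obtain ⟨c2, h4, h5, h6⟩ := ih2 (fun _ e => hR (Or.inr (Or.inr e))) c1 h1 h2
    exact ⟨c2, h4, h5, Can.one (hR (Or.inl rfl)) (h3.append h6)⟩
  | @stop r p s h0 =>
    rintro hR c hc rfl
    refine ⟨c, hc, rfl, ?_⟩
    have := seg_can (fun _ e => hR (Or.inr (Or.inl
      (Set.mem_biUnion (nondiv' ((dc_zero hc r).1 h0)) e)))) (c / pm r) (Can.nil _ _)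
    rwa [Nat.div_add_mod] at this
  | @go r p s t u h0 _ _ ih1 ih2 =>
    rintro hR c hc rfl
    obtain ⟨c1, h1, h2, h3⟩ := ih1 (fun _ e => hR (Or.inr (Or.inr e))) c hc rfl
    obtain ⟨c2, h4, h5, h6⟩ := ih2 hR c1 h1 h2
    obtain ⟨m, rfl⟩ := not_not.1 (fun h => h0 ((dc_zero hc r).2 h))
    exact ⟨c2, h4, h5, seg_can (fun _ e => hR (Or.inl e)) m (h3.append h6)⟩

noncomputable def startR (P : Prog) (n : ℕ) : Ru :=
  ⟨en .start, .terminal 1 :: .terminal 0 :: (replicate n (nt (.pr (.inc 0))) ++ [nt (.pr P)])⟩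

theorem dc_pow (n : ℕ) : dc (pm 0 ^ n) = init n := by
  induction n with
  | zero => funext r; simp [dc, init]
  | succ n ih =>
    rw [pow_succ', dc_mul (pow_ne_zero _ (pm_prime 0).ne_zero), ih]
    simp [init]

theorem gram_sound (P : Prog) (n : ℕ) (u : List (Fin 4))
    (h : Gen (insert (startR P n) (rules (.inc 0) ∪ rules P)) [nt .start] u)
    (hu : ∃ q q', run q u = some q') : ∃ t, Run P (init n) t := by
  have hs := h.sound (I := I0 (∃ t, Run P (init n) t)) ?_
  · simp only [nt, sem_nt, sem_nil, I0_en] at hs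
    obtain ⟨v, _, h1, rfl, rfl⟩ := hs
    exact h1 (by simpa using hu)
  rintro r (rfl | hr | hr)
  · intro w hw
    simp only [startR, sem_ter, I0_en] at hw ⊢
    obtain ⟨_, ⟨w, hw, rfl⟩, rfl⟩ := hw
    rintro ⟨⟨N, c⟩, ⟨N', c'⟩, h⟩
    have h1 : run (2 * N, 1) w = some (N', c') := by
      have := run_app (u := blk 0 1).1 h
      obtain ⟨q, h1, h2⟩ := this
      rw [run_blk] at h1
      rwa [h1.2.2] at h2
    have key : ∀ (k : ℕ) (w : List (Fin 4)) (M j : ℕ), Sem (I0 (∃ t, Run P (init n) t))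
        (replicate k (nt (.pr (.inc 0))) ++ [nt (.pr P)]) w → run (M, pm 0 ^ j) w = some (N', c') →
        ∃ t, Run P (init (j + k)) t := by
      intro k
      induction k with
      | zero =>
        intro w M j hw h
        simp only [replicate_zero, nil_append, nt, sem_nt, sem_nil, I0_en] at hw
        obtain ⟨v, _, h1, rfl, rfl⟩ := hw
        rw [append_nil] at h
        exact ⟨_, dc_pow j ▸ (h1 _ _ _ _ (pow_ne_zero _ (pm_prime 0).ne_zero) h).2⟩
      | succ k ih =>
        intro w M j hw h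
        rw [replicate_succ, cons_append, nt, sem_nt, I0_en] at hw
        obtain ⟨u, v, h1, h2, rfl⟩ := hw
        obtain ⟨⟨M', d⟩, h3, h4⟩ := run_app.1 h
        obtain ⟨h5, h6⟩ := h1 _ _ _ _ (pow_ne_zero _ (pm_prime 0).ne_zero) h3
        have h7 := h6.det (Run.inc _ _)
        rw [← dc_mul (pow_ne_zero _ (pm_prime 0).ne_zero), ← pow_succ'] at h7
        have h8 : d = pm 0 ^ (j + 1) := by
          refine Nat.eq_of_factorization_eq h5 (pow_ne_zero _ (pm_prime 0).ne_zero) (fun p => ?_)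
          by_cases hp : p.Prime
          · have := congrFun h7 (Nat.count Nat.Prime p)
            simpa only [dc, pm, Nat.nth_count hp] using this
          · simp [Nat.factorization_eq_zero_of_not_prime _ hp]
        rw [h8] at h4
        simpa [add_assoc, add_comm 1 k] using ih v M' (j + 1) h2 h4
    simpa using key n w _ 0 hw (by simpa using h1)
  · exact rules_sound _ _ r hr
  · exact rules_sound _ _ r hr

theorem gram_complete (P : Prog) (n : ℕ) (t : St) (h : Run P (init n) t) : ∃ j u q,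
    Gen (insert (startR P n) (rules (.inc 0) ∪ rules P)) [nt .start] (1 :: u) ∧
    (∀ x ∈ u, x = 0 ∨ x = 1) ∧ run (2 ^ (j + 1), 0) u = some q := by
  generalize hR : insert (startR P n) (rules (.inc 0) ∪ rules P) = R
  have h1 : ∀ k, Can R (replicate k (nt (.pr (.inc 0)))) 1 (pm 0 ^ k) := by
    intro k
    induction k with
    | zero => exact Can.nil _ _
    | succ k ih =>
      rw [replicate_succ', pow_succ']
      refine ih.append ?_
      simpa using seg_can (p := .inc 0) (x := 1) (y := pm 0) (z := 0)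
        (fun _ e => hR ▸ Or.inr (Or.inl e)) (pm 0 ^ k) (Can.nil _ _)
  obtain ⟨c, -, -, h2⟩ := complete (R := R) h (fun _ e => hR ▸ Or.inr (Or.inr e)) _
    (pow_ne_zero _ (pm_prime 0).ne_zero) (dc_pow n)
  obtain ⟨B, h3⟩ := (h1 n).append h2
  obtain ⟨u, N', -, h4, h5, h6⟩ := h3 (2 ^ (B + 1))
    (Nat.lt_two_pow_self.le.trans (Nat.pow_le_pow_right two_pos B.le_succ))
  refine ⟨B, 0 :: u, (N', c), Gen.one (hR ▸ Or.inl rfl) (.ter _ (.ter _ h4)), by simpa using h5, ?_⟩
  simpa [run, step] using h6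

end Pool.Agent.H.MP_88f7c7_lc
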